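import Pool.Agent.helper67.RG.Spec

/-! Row CHF: the characteristic polynomial is the product over the factors of a flag. -/

namespace Pool.Agent.RG.CHF

open Matrix Polynomial Pool.Agent.RG

section gen

variable {R V : Type*} [Field R] [AddCommGroup V] [Module R V] [Module.Finite R V]

open Module.Basis in
theorem CHF_quot (W : Submodule R V) (e : V →ₗ[R] V) (he : W ≤ W.comap e) :
    e.charpoly = (e.restrict he).charpoly * (W.mapQ W e he).charpoly := by
  classical
  let m := Module.Free.ChooseBasisIndex R W
  let bW : Module.Basis m R W := Module.Free.chooseBasis R W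
  let n := Module.Free.ChooseBasisIndex R (V ⧸ W)
  let bQ : Module.Basis n R (V ⧸ W) := Module.Free.chooseBasis R (V ⧸ W)
  let b := sumQuot bW bQ
  let A : Matrix m m R := LinearMap.toMatrix bW bW (e.restrict he)
  let B : Matrix m n R := Matrix.of fun i l ↦
    ((sumQuot bW bQ).repr (e ((sumQuot bW bQ) (Sum.inr l)))) (Sum.inl i)
  let D : Matrix n n R := LinearMap.toMatrix bQ bQ (W.mapQ W e he)
  suffices LinearMap.toMatrix b b e = Matrix.fromBlocks A B 0 D by
    rw [← LinearMap.charpoly_toMatrix e b, this, ← LinearMap.charpoly_toMatrix _ bW,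
      ← LinearMap.charpoly_toMatrix _ bQ, Matrix.charpoly_fromBlocks_zero₂₁]
  ext u v
  cases u with
  | inl i =>
    cases v with
    | inl k =>
      simp only [b, sumQuot_inl, Matrix.fromBlocks_apply₁₁, A, LinearMap.toMatrix_apply]
      apply sumQuot_repr_inl_of_mem
    | inr l => simp [b, LinearMap.toMatrix_apply, Matrix.fromBlocks_apply₁₂, B]
  | inr j =>
    cases v with
    | inl k =>
      suffices W.mkQ (e (bW k)) = 0 by simp [LinearMap.toMatrix_apply, b, this]
      rw [← LinearMap.mem_ker, Submodule.ker_mkQ]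
      exact he (Submodule.coe_mem (bW k))
    | inr l =>
      simp only [LinearMap.toMatrix_apply, sumQuot_repr_inr,
        Matrix.fromBlocks_apply₂₂, b, D]
      rw [← sumQuot_inr bW bQ l, W.mapQ_apply]
      simp

/-- Additivity in short exact sequences. -/
theorem CHF_exact {A Q : Type*} [AddCommGroup A] [Module R A] [Module.Finite R A]
    [AddCommGroup Q] [Module R Q] [Module.Finite R Q] (fA : Module.End R A) (f : Module.End R V)
    (fQ : Module.End R Q) (ι : A →ₗ[R] V) (π : V →ₗ[R] Q) (hι : Function.Injective ι)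
    (hπ : Function.Surjective π) (hk : LinearMap.range ι = LinearMap.ker π)
    (h1 : ∀ x, ι (fA x) = f (ι x)) (h2 : ∀ x, π (f x) = fQ (π x)) :
    f.charpoly = fA.charpoly * fQ.charpoly := by
  have he : LinearMap.ker π ≤ (LinearMap.ker π).comap f := by
    intro x hx
    rw [Submodule.mem_comap, LinearMap.mem_ker, h2, LinearMap.mem_ker.1 hx, map_zero]
  rw [CHF_quot (LinearMap.ker π) f he]
  congr 1
  · have hmem : ∀ x, ι x ∈ LinearMap.ker π := fun x => by
      rw [← hk]; exact LinearMap.mem_range_self ι x
    let e : A ≃ₗ[R] LinearMap.ker π := LinearEquiv.ofBijective (ι.codRestrict _ hmem)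
      ⟨fun x y hxy => hι (congrArg Subtype.val hxy), fun y => by
        have hy : y.1 ∈ LinearMap.range ι := by rw [hk]; exact y.2
        obtain ⟨x, hx⟩ := hy
        exact ⟨x, Subtype.ext hx⟩⟩
    rw [← LinearEquiv.charpoly_conj e fA]
    congr 1
    ext y
    obtain ⟨x, rfl⟩ := e.surjective y
    rw [LinearEquiv.conj_apply_apply, e.symm_apply_apply]
    show f (ι x) = ι (fA x)
    rw [h1]
  · let e : (V ⧸ LinearMap.ker π) ≃ₗ[R] Q := LinearMap.quotKerEquivOfSurjective π hπ
    rw [← LinearEquiv.charpoly_conj e]
    congr 1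
    ext y
    obtain ⟨x, rfl⟩ := hπ y
    have hx : e.symm (π x) = Submodule.Quotient.mk x := by
      rw [LinearEquiv.symm_apply_eq]
      rfl
    rw [LinearEquiv.conj_apply_apply, hx, Submodule.mapQ_apply]
    show π (f x) = fQ (π x)
    rw [h2]

end gen

theorem CHF : CHF_stmt := by
  intro F Γ m _ _ _ _ V N c hc d W π hπ g
  classical
  let f : Module.End F (m → F) := Matrix.toLin' (V g)
  have hst : ∀ i, i ≤ N → ∀ x ∈ c i, f x ∈ c i := fun i hi x hx => by
    show Matrix.toLin' (V g) x ∈ c i
    rw [Matrix.toLin'_apply]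
    exact hc.stable i hi g x hx
  have key : ∀ i (hi : i ≤ N), (f.restrict (hst i hi)).charpoly =
      ∏ j ∈ Finset.univ.filter (fun j : Fin N => j.1 < i), (W j g).charpoly := by
    intro i
    induction i with
    | zero =>
      intro hi
      have h0 : Subsingleton (c 0) := by
        rw [hc.bot]; infer_instance
      have h1 : Module.finrank F (c 0) = 0 := Module.finrank_zero_of_subsingleton
      have h2 := LinearMap.charpoly_natDegree (f.restrict (hst 0 hi))
      rw [h1] at h2
      rw [(LinearMap.charpoly_monic _).natDegree_eq_zero.1 h2]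
      simp
    | succ i ih =>
      intro hi
      have hi' : i < N := hi
      have hf := hπ ⟨i, hi'⟩
      have hle : c i ≤ c (i + 1) := hf.le
      have h3 : (Matrix.toLin' (W ⟨i, hi'⟩ g)).charpoly = (W ⟨i, hi'⟩ g).charpoly :=
        Matrix.charpoly_toLin' _
      rw [CHF_exact (f.restrict (hst i hi'.le)) (f.restrict (hst (i + 1) hi))
        (Matrix.toLin' (W ⟨i, hi'⟩ g)) (Submodule.inclusion hle) (π ⟨i, hi'⟩)
        (Submodule.inclusion_injective hle) hf.surj ?_ ?_ ?_, ih hi'.le, h3]
      · have h4 : Finset.univ.filter (fun j : Fin N => j.1 < i + 1) =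
            insert ⟨i, hi'⟩ (Finset.univ.filter (fun j : Fin N => j.1 < i)) := by
          ext j
          simp only [Finset.mem_filter, Finset.mem_univ, true_and, Finset.mem_insert, Fin.ext_iff]
          omega
        rw [h4, Finset.prod_insert (by simp), mul_comm]
      · ext x
        rw [LinearMap.mem_ker]
        constructor
        · rintro ⟨y, rfl⟩
          exact (hf.ker _).2 y.2
        · intro hx
          exact ⟨⟨x.1, (hf.ker x).1 hx⟩, Subtype.ext rfl⟩
      · intro x
        exact Subtype.ext rfl
      · intro x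
        rw [Matrix.toLin'_apply]
        refine hf.equiv g x _ ?_
        show Matrix.toLin' (V g) x.1 = V g *ᵥ x.1
        rw [Matrix.toLin'_apply]
  have hN := key N le_rfl
  have htop : (f.restrict (hst N le_rfl)).charpoly = f.charpoly := by
    let e : c N ≃ₗ[F] (m → F) := LinearEquiv.ofTop (c N) hc.top
    rw [← LinearEquiv.charpoly_conj e]
    congr 1
  have h5 : f.charpoly = (V g).charpoly := Matrix.charpoly_toLin' _
  rw [← h5, ← htop, hN]
  congr 1
  ext j
  simp

end Pool.Agent.RG.CHF
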