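import Pool.Agent.helper67.RG.Spec3

/-! Row BND: a bounded difference is an algebraic relation. -/

namespace Pool.Agent.RG.BND

open Polynomial Pool.Agent.RG

theorem BND_map {E : Type*} [Field E] {r : ℕ} (s : Finset E) (k : Fin r × ℕ) (x : Fin r × ℕ → E) :
    (∏ b ∈ s, ((X : (MvPolynomial (Fin r × ℕ) E)[X]) + C (MvPolynomial.X k) -
      C (MvPolynomial.C b))).map (MvPolynomial.eval x) = ∏ b ∈ s, (X + C (x k - b)) := by
  rw [Polynomial.map_prod]
  refine Finset.prod_congr rfl fun b _ => ?_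
  rw [Polynomial.map_sub, Polynomial.map_add, Polynomial.map_X, Polynomial.map_C, Polynomial.map_C,
    MvPolynomial.eval_X, MvPolynomial.eval_C, C_sub]
  ring

theorem BND : BND_stmt := by
  intro Place E _ r P Q S j m B hB hS
  classical
  refine ⟨∏ b ∈ hB.toFinset, ((X : (MvPolynomial (Fin r × ℕ) E)[X]) + C (MvPolynomial.X (j, m)) -
    C (MvPolynomial.C b)), fun v hv => ?_⟩
  rw [BND_map]
  refine ⟨(monic_prod_of_monic _ _ fun b _ => monic_X_add_C _).ne_zero, ?_⟩
  rw [IsRoot.def, eval_prod]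
  refine Finset.prod_eq_zero (i := -(Q v).coeff 1 + (P j v).coeff m) (hB.mem_toFinset.2 (hS v hv)) ?_
  rw [eval_add, eval_X, eval_C]
  show -(Q v).coeff 1 + ((P j v).coeff m - (-(Q v).coeff 1 + (P j v).coeff m)) = 0
  ring

end Pool.Agent.RG.BND
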